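import Pool.Agent.Q6.XK.Crit
import Pool.Agent.Q6.XM.Fld
import Pool.Agent.Y302.CQ.LOW
import Pool.Agent.Y302.CQ.CHE
import Pool.Agent.Y405.CQ.MER

/-!
# The joint distribution of `rank zero and Ш[2] = 0` for several twists of `X_0(49)`

The joint law for the twists of the curves `E^m`, `m` in a finite set, by a varying `D`.
-/

set_option autoImplicit false

open Finset Filter

namespace Pool.Agent.Q160.JX

/-- the class: `D` is squarefree, its prime factors are `1` modulo `8` and split in `ℚ(√-7)`, or `5`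
modulo `8` and inert in `ℚ(√-7)` -/
def Class (D : ℕ) : Prop := Squarefree D ∧ ∀ p : ℕ, p.Prime → p ∣ D →
  (p % 8 = 1 ∧ (p % 7 = 1 ∨ p % 7 = 2 ∨ p % 7 = 4)) ∨
  (p % 8 = 5 ∧ (p % 7 = 3 ∨ p % 7 = 5 ∨ p % 7 = 6))

/-- the family: the numbers of the class which are `1` modulo `8` -/
def Family (D : ℕ) : Prop := Class D ∧ D % 8 = 1

/-- the squarefree part of the product of two squarefree numbers -/
def star (m D : ℕ) : ℕ := m * D / (Nat.gcd m D) ^ 2

open Classical in
/-- the number of the `D ≤ X` in the family with the property `Q` -/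
noncomputable def count (Q : ℕ → Prop) (X : ℕ) : ℕ := ((Icc 1 X).filter fun D => Family D ∧ Q D).card

open Q6.XK Q6.XM
open Pool.Agent.Y703.CQ (Cl Gd Ok c2)
open Pool.Agent.Y687.JQ (GdJ OkW)
open Pool.Agent.Y698.SG (n4)

theorem fam_iff' (D : ℕ) : Family D ↔ Fam D := by
  unfold Family Class Fam
  tauto

theorem class_CL {D : ℕ} (h : Class D) : CL D.primeFactors := by
  intro p hp
  obtain ⟨k1, k2, -⟩ := Nat.mem_primeFactors.1 hp
  exact ⟨k1, h.2 p k1 k2⟩

theorem class_of {S : Finset ℕ} (h : CL S) : Class (DD S) := by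
  refine ⟨h.sqf, fun p hp hd => ?_⟩
  have h1 : p ∈ S := by
    rw [← h.pf]
    exact Nat.mem_primeFactors.2 ⟨hp, hd, h.sqf.ne_zero⟩
  exact (h p h1).2

theorem gcd_eq {m D : ℕ} (hm : Class m) (hD : Class D) :
    Nat.gcd m D = DD (D.primeFactors ∩ m.primeFactors) := by
  have h1 : Squarefree (Nat.gcd m D) := hm.1.squarefree_of_dvd (Nat.gcd_dvd_left m D)
  rw [← Nat.prod_primeFactors_of_squarefree h1, Nat.primeFactors_gcd hm.1.ne_zero hD.1.ne_zero,
    Finset.inter_comm]
  rfl

theorem star_eq {m D : ℕ} (hm : Class m) (hD : Class D) :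
    star m D = DD (symmDiff D.primeFactors m.primeFactors) := by
  have h1 := DD_mul D.primeFactors m.primeFactors
  have e1 : DD D.primeFactors = D := Nat.prod_primeFactors_of_squarefree hD.1
  have e2 : DD m.primeFactors = m := Nat.prod_primeFactors_of_squarefree hm.1
  rw [e1, e2] at h1
  have h2 : m * D = DD (symmDiff D.primeFactors m.primeFactors) *
      (DD (D.primeFactors ∩ m.primeFactors)) ^ 2 := by
    rw [mul_comm]
    exact_mod_cast h1
  unfold star
  rw [h2, gcd_eq hm hD]
  refine Nat.mul_div_cancel _ (pow_pos (Nat.pos_of_ne_zero ?_) 2)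
  have h3 : CL (D.primeFactors ∩ m.primeFactors) := fun p hp =>
    class_CL hD p (Finset.mem_inter.1 hp).1
  exact h3.sqf.ne_zero

theorem star_class {m D : ℕ} (hm : Class m) (hD : Class D) :
    Class (star m D) ∧ m * D = star m D * (Nat.gcd m D) ^ 2 := by
  rw [star_eq hm hD]
  refine ⟨class_of ((class_CL hD).symmDiff (class_CL hm)), ?_⟩
  rw [gcd_eq hm hD]
  have h1 := DD_mul D.primeFactors m.primeFactors
  have e1 : DD D.primeFactors = D := Nat.prod_primeFactors_of_squarefree hD.1
  have e2 : DD m.primeFactors = m := Nat.prod_primeFactors_of_squarefree hm.1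
  rw [e1, e2] at h1
  rw [mul_comm m D]
  exact_mod_cast h1

theorem class_base {D : ℕ} (hD : Class D) : Base D := by
  refine ⟨hD.1, fun p hp hd => ?_⟩
  rcases hD.2 p hp hd with h | h <;> omega

/-- the condition in terms of the primes -/
theorem rz_iff {m D : ℕ} (hm : Class m) (hD : Class D) :
    Triv (star m D : ℤ) ↔ Gd n4 (symmDiff D.primeFactors m.primeFactors) := by
  have hS : CL (symmDiff D.primeFactors m.primeFactors) := (class_CL hD).symmDiff (class_CL hm)
  rw [triv_crit (class_base (star_class hm hD).1), star_eq hm hD, free_iff hS]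

open Classical in
theorem count_card (Q : ℕ → Prop) (X : ℕ) (T : Finset ℕ)
    (h : ∀ D, D ∈ T ↔ D ∈ Icc 1 X ∧ Family D ∧ Q D) : count Q X = T.card := by
  unfold count
  congr 1
  ext D
  rw [mem_filter, h]

open Classical in
theorem joint (F : Finset ℕ) (hF : ∀ m ∈ F, Class m) :
    Tendsto (fun X : ℕ => (count (fun D => ∀ m ∈ F, Triv (star m D : ℤ)) X : ℝ) /
      (count (fun _ => True) X : ℝ)) atTop (nhds (c2 ^ F.card)) := by
  set V : ℕ → Finset ℕ := fun m => m.primeFactors with hV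
  have hinj : Set.InjOn V F := by
    intro m hm m' hm' h
    rw [← Nat.prod_primeFactors_of_squarefree (hF m hm).1,
      ← Nat.prod_primeFactors_of_squarefree (hF m' hm').1]
    exact congrArg (fun T : Finset ℕ => ∏ q ∈ T, q) h
  have hcard : (F.image V).card = F.card := Finset.card_image_of_injOn hinj
  have hOk : OkW (F.biUnion V) (F.image V) := by
    constructor
    · intro u hu
      obtain ⟨m, hm, hu⟩ := Finset.mem_biUnion.1 hu
      obtain ⟨k1, k2⟩ := class_CL (hF m hm) u hu
      refine ⟨k1, ?_, ?_⟩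
      · rintro rfl
        rcases k2 with h | h <;> omega
      · rintro rfl
        rcases k2 with h | h <;> omega
    · intro U hU
      obtain ⟨m, hm, rfl⟩ := Finset.mem_image.1 hU
      exact Finset.subset_biUnion_of_mem V hm
  have hok : Ok {5} {0} := ⟨Or.inl rfl, Or.inl (by simp)⟩
  have h := Pool.Agent.Y687.JQ.t_JDEN {5} {0} n4 (F.biUnion V) (F.image V) hok hOk
  rw [hcard] at h
  refine h.congr fun X => ?_
  have e1 : count (fun D => ∀ m ∈ F, Triv (star m D : ℤ)) X =
      ((Icc 1 X).filter fun D => Squarefree D ∧ Cl {5} {0} D.primeFactors ∧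
        GdJ n4 (F.image V) D.primeFactors).card := by
    refine count_card _ _ _ fun D => ?_
    rw [Finset.mem_filter]
    refine and_congr_right fun _ => ?_
    rw [← and_assoc, ← Q6.XK.fam_iff, ← fam_iff']
    refine and_congr_right fun hA => ?_
    unfold GdJ
    simp only [Finset.mem_image, forall_exists_index, and_imp, forall_apply_eq_imp_iff₂]
    exact forall_congr' fun m => forall_congr' fun hm => (rz_iff (hF m hm) hA.1).symm
  have e2 : count (fun _ => True) X =
      ((Icc 1 X).filter fun D => Squarefree D ∧ Cl {5} {0} D.primeFactors).card := by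
    refine count_card _ _ _ fun D => ?_
    rw [Finset.mem_filter, and_true, fam_iff', Q6.XK.fam_iff]
  rw [e1, e2]

open Classical in
theorem count_split (Q R : ℕ → Prop) (X : ℕ) :
    count (fun D => Q D ∧ R D) X + count (fun D => Q D ∧ ¬ R D) X = count Q X := by
  unfold count
  have h := Finset.card_filter_add_card_filter_not
    (s := (Icc 1 X).filter fun D => Family D ∧ Q D) (fun D => R D)
  rw [Finset.filter_filter, Finset.filter_filter] at h
  simp only [and_assoc] at h ⊢
  exact h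

/-- **the joint distribution**: the events are asymptotically independent -/
theorem pattern (K : Finset ℕ) :
    (∀ m ∈ K, Class m) → ∀ G : Finset ℕ, (∀ m ∈ G, Class m) → Disjoint G K →
    Tendsto (fun X : ℕ => (count (fun D => (∀ m ∈ G, Triv (star m D : ℤ)) ∧
      ∀ m ∈ K, ¬ Triv (star m D : ℤ)) X : ℝ) / (count (fun _ => True) X : ℝ)) atTop
      (nhds (c2 ^ G.card * (1 - c2) ^ K.card)) := by
  classical
  induction K using Finset.induction_on with
  | empty =>
    intro _ G hG _
    have h := joint G hG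
    rw [Finset.card_empty, pow_zero, mul_one]
    refine h.congr fun X => ?_
    congr 3
    funext D
    simp
  | insert m K hm ih =>
    intro hK G hG hd
    have hK' : ∀ a ∈ K, Class a := fun a ha => hK a (Finset.mem_insert_of_mem ha)
    have hmA : Class m := hK m (Finset.mem_insert_self m K)
    have hmG : m ∉ G := fun h => Finset.disjoint_left.1 hd h (Finset.mem_insert_self m K)
    have hd1 : Disjoint G K := hd.mono_right (Finset.subset_insert m K)
    have hd2 : Disjoint (insert m G) K := Finset.disjoint_insert_left.2 ⟨hm, hd1⟩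
    have h1 := ih hK' G hG hd1
    have h2 := ih hK' (insert m G) (fun a ha => by
      rcases Finset.mem_insert.1 ha with rfl | ha
      · exact hmA
      · exact hG a ha) hd2
    have h3 := h1.sub h2
    rw [Finset.card_insert_of_notMem hmG] at h3
    rw [Finset.card_insert_of_notMem hm]
    have e : c2 ^ G.card * (1 - c2) ^ (K.card + 1) =
        c2 ^ G.card * (1 - c2) ^ K.card - c2 ^ (G.card + 1) * (1 - c2) ^ K.card := by ring
    rw [e]
    refine h3.congr fun X => ?_
    rw [← sub_div]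
    congr 1
    have h4 := count_split (fun D => (∀ m ∈ G, Triv (star m D : ℤ)) ∧
      ∀ m ∈ K, ¬ Triv (star m D : ℤ)) (fun D => Triv (star m D : ℤ)) X
    have h5 : (fun D => ((∀ m ∈ G, Triv (star m D : ℤ)) ∧
        ∀ m ∈ K, ¬ Triv (star m D : ℤ)) ∧ Triv (star m D : ℤ)) =
        fun D => (∀ a ∈ insert m G, Triv (star a D : ℤ)) ∧
          ∀ a ∈ K, ¬ Triv (star a D : ℤ) := by
      funext D
      rw [Finset.forall_mem_insert]
      refine propext ?_
      tauto
    have h6 : (fun D => ((∀ m ∈ G, Triv (star m D : ℤ)) ∧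
        ∀ m ∈ K, ¬ Triv (star m D : ℤ)) ∧ ¬ Triv (star m D : ℤ)) =
        fun D => (∀ a ∈ G, Triv (star a D : ℤ)) ∧
          ∀ a ∈ insert m K, ¬ Triv (star a D : ℤ) := by
      funext D
      rw [Finset.forall_mem_insert]
      refine propext ?_
      tauto
    rw [h5, h6] at h4
    rw [← h4]
    push_cast
    ring

open Classical in
/-- lower bound for the size of the family -/
theorem low : ∃ (c : ℝ) (X₀ : ℕ), 0 < c ∧ ∀ X : ℕ, X₀ ≤ X →
    c * (X * (Real.log X) ^ (-(3 / 4) : ℝ)) ≤ (count (fun _ => True) X : ℝ) := by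
  have hok : Ok {5} {0} := ⟨Or.inl rfl, Or.inl (by simp)⟩
  obtain ⟨c, X₀, hc, h⟩ := Pool.Agent.Y302.CQ.t_LOW Pool.Agent.Y405.CQ.t_MER
    Pool.Agent.Y302.CQ.t_CHE {5} {0} hok
  refine ⟨c, X₀, hc, fun X hX => ?_⟩
  have h1 := h X hX
  have e : (-1 + Pool.Agent.Y703.CQ.dl {5} : ℝ) = -(3 / 4) := by
    unfold Pool.Agent.Y703.CQ.dl
    rw [Finset.card_singleton]
    norm_num
  rw [e, mul_assoc] at h1
  refine le_trans h1 (le_of_eq ?_)
  have e2 := Pool.Agent.Y514.CQ.card_eq {5} {0} X (fun _ => True)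
  rw [Finset.filter_true] at e2
  simp only [and_true] at e2
  have e3 : count (fun _ => True) X = (Pool.Agent.Y703.CQ.SS {5} {0} X).card := by
    rw [← e2]
    refine count_card _ _ _ fun D => ?_
    rw [Finset.mem_filter, and_true, fam_iff', Q6.XK.fam_iff]
  rw [e3]

theorem base_atTop : Tendsto (fun X => (count (fun _ => True) X : ℝ)) atTop atTop := by
  classical
  refine tendsto_natCast_atTop_atTop.comp ?_
  refine tendsto_atTop_atTop.2 fun b => ?_
  obtain ⟨s, hs, hsc⟩ := fam_infinite.exists_subset_card_eq b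
  refine ⟨s.sup id, fun X hX => ?_⟩
  have e := count_card (fun _ => True) X ((Icc 1 X).filter fun D => Family D) fun D => by
    rw [Finset.mem_filter, and_true]
  rw [← hsc, e]
  refine Finset.card_le_card fun D hD => ?_
  have h1 := hs hD
  rw [Finset.mem_filter]
  exact ⟨Finset.mem_Icc.2 ⟨h1.1, (Finset.le_sup (f := id) hD).trans hX⟩, (fam_iff' D).2 h1.2⟩

/-- the constant -/
theorem const : 0 < c2 ∧ (0.4194 : ℝ) < c2 ∧ c2 < 0.4195 ∧
    Tendsto (fun n : ℕ => ∏ i ∈ range n, (1 - (1 / 2 : ℝ) ^ (2 * i + 1))) atTop (nhds c2) := by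
  obtain ⟨hC, hc0, hc1', hc1, hc2⟩ := Y948.CQ.t_C2
  refine ⟨hc0, hc1, hc2, ?_⟩
  rw [tendsto_iff_norm_sub_tendsto_zero]
  refine squeeze_zero (fun n => norm_nonneg _) (fun n => ?_)
    (tendsto_pow_atTop_nhds_zero_of_lt_one (by norm_num : (0 : ℝ) ≤ 1 / 4)
      (by norm_num : (1 / 4 : ℝ) < 1))
  rw [Real.norm_eq_abs]
  exact hC n

/-- **the joint law with the lower bound** -/
theorem main (G K : Finset ℕ) (hG : ∀ m ∈ G, Class m) (hK : ∀ m ∈ K, Class m) (hd : Disjoint G K) :
    Tendsto (fun X : ℕ => (count (fun D => (∀ m ∈ G, Triv (star m D : ℤ)) ∧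
      ∀ m ∈ K, ¬ Triv (star m D : ℤ)) X : ℝ) / (count (fun _ => True) X : ℝ)) atTop
      (nhds (c2 ^ G.card * (1 - c2) ^ K.card)) ∧
    ∃ (a : ℝ) (X₀ : ℕ), 0 < a ∧ ∀ X : ℕ, X₀ ≤ X → a * (X * (Real.log X) ^ (-(3 / 4) : ℝ)) ≤
      (count (fun D => (∀ m ∈ G, Triv (star m D : ℤ)) ∧
        ∀ m ∈ K, ¬ Triv (star m D : ℤ)) X : ℝ) := by
  have hlim := pattern K hK G hG hd
  refine ⟨hlim, ?_⟩
  obtain ⟨hc0, hc1, hc2, -⟩ := const
  have hpos : (0 : ℝ) < c2 ^ G.card * (1 - c2) ^ K.card := by
    have k1 : (0 : ℝ) < c2 := hc0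
    have k2 : (0 : ℝ) < 1 - c2 := by linarith
    positivity
  obtain ⟨c, X₀, hc, hlow⟩ := low
  have h1 := hlim.eventually_const_lt
    (show c2 ^ G.card * (1 - c2) ^ K.card / 2 < c2 ^ G.card * (1 - c2) ^ K.card by linarith)
  have h2 := base_atTop.eventually_gt_atTop 0
  obtain ⟨X₁, hX₁⟩ := eventually_atTop.1 (h1.and (h2.and (eventually_ge_atTop X₀)))
  refine ⟨c2 ^ G.card * (1 - c2) ^ K.card / 2 * c, X₁, by positivity, fun X hX => ?_⟩
  obtain ⟨k1, k2, k3⟩ := hX₁ X hX
  have k5 := (lt_div_iff₀ k2).1 k1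
  have k6 := hlow X k3
  calc c2 ^ G.card * (1 - c2) ^ K.card / 2 * c * (X * (Real.log X) ^ (-(3 / 4) : ℝ)) =
      c2 ^ G.card * (1 - c2) ^ K.card / 2 * (c * (X * (Real.log X) ^ (-(3 / 4) : ℝ))) := by ring
    _ ≤ c2 ^ G.card * (1 - c2) ^ K.card / 2 * (count (fun _ => True) X : ℝ) :=
      mul_le_mul_of_nonneg_left k6 (by positivity)
    _ ≤ _ := k5.le

end Pool.Agent.Q160.JX
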